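import Pool.Agent.Y269.EG.Stm

/-!
# Project EG: fellow travelling in the groups of the graphs
-/

set_option autoImplicit false

noncomputable section

namespace Pool.Agent.Y288.EG

open Pool.Agent.Y269.EG FreeGroup

variable {k : ℕ}

/-- the image of a word in the quotient -/
abbrev wq (N : Subgroup (F k)) (l : Wd k) : F k ⧸ N := ((FreeGroup.mk l : F k) : F k ⧸ N)

theorem wq_append (N : Subgroup (F k)) [N.Normal] (a b : Wd k) :
    wq N (a ++ b) = wq N a * wq N b := by
  unfold wq
  rw [← FreeGroup.mul_mk, QuotientGroup.mk_mul]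

theorem wq_nil (N : Subgroup (F k)) [N.Normal] : wq N [] = 1 := by
  unfold wq
  rw [← FreeGroup.one_eq_mk, QuotientGroup.mk_one]

theorem wq_invRev (N : Subgroup (F k)) [N.Normal] (a : Wd k) :
    wq N (invRev a) = (wq N a)⁻¹ := by
  unfold wq
  rw [← FreeGroup.inv_mk, QuotientGroup.mk_inv]

theorem wq_reduce (N : Subgroup (F k)) (a : Wd k) : wq N (reduce a) = wq N a := by
  unfold wq
  rw [reduce.self]

theorem length_reduce_le (a : Wd k) : (reduce a).length ≤ a.length :=
  (reduce.red (L := a)).sublist.length_le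

theorem isReduced_reduce (a : Wd k) : IsReduced (reduce a) := by
  rw [isReduced_iff_reduce_eq, reduce.idem]

theorem isReduced_invRev {a : Wd k} (h : IsReduced a) : IsReduced (invRev a) := by
  rw [isReduced_iff_reduce_eq] at *
  rw [reduce_invRev, h]

/-! ### geodesics -/

section geo

variable {N : Subgroup (F k)} [N.Normal] {x y : F k ⧸ N} {a b c l m w : Wd k}

theorem geo_drop (h : GeoTo N x (a ++ b)) : GeoTo N (x * wq N a) b := by
  refine ⟨?_, fun l' hl' => ?_⟩
  · have := h.1
    change x * wq N (a ++ b) = 1 at this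
    rw [wq_append, ← mul_assoc] at this
    exact this
  · have := h.2 (a ++ l') (by
      change x * wq N (a ++ l') = 1
      rw [wq_append, ← mul_assoc]
      exact hl')
    simpa using this

theorem geo_init (h : GeoTo N x (b ++ c)) {b' : Wd k} (hb : wq N b' = wq N b) :
    b.length ≤ b'.length := by
  have := h.2 (b' ++ c) (by
    change x * wq N (b' ++ c) = 1
    rw [wq_append, hb, ← wq_append]
    exact h.1)
  simpa using this

theorem geo_mid (h : GeoTo N x (a ++ b ++ c)) {b' : Wd k} (hb : wq N b' = wq N b) :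
    b.length ≤ b'.length := by
  rw [List.append_assoc] at h
  exact geo_init (geo_drop h) hb

theorem geo_reduced (h : GeoTo N x l) : IsReduced l := by
  rw [isReduced_iff_reduce_eq]
  have h1 := h.2 (reduce l) (by
    change x * wq N (reduce l) = 1
    rw [wq_reduce]
    exact h.1)
  exact (reduce.red (L := l)).sublist.eq_of_length
    (le_antisymm (length_reduce_le l) h1)

theorem gd_le (h : x * wq N l = y) : gd N x y ≤ l.length := Nat.sInf_le ⟨l, h, rfl⟩

theorem exists_word (x y : F k ⧸ N) :
    ∃ w : Wd k, IsReduced w ∧ x * wq N w = y ∧ w.length ≤ gd N x y := by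
  have hne : {n | ∃ l : Wd k, x * ((FreeGroup.mk l : F k) : F k ⧸ N) = y ∧ l.length = n}.Nonempty := by
    obtain ⟨u, hu⟩ := QuotientGroup.mk_surjective (x⁻¹ * y)
    refine ⟨u.toWord.length, u.toWord, ?_, rfl⟩
    rw [mk_toWord, hu]
    group
  obtain ⟨l, hl, hn⟩ := Nat.sInf_mem hne
  refine ⟨reduce l, isReduced_reduce l, ?_, ?_⟩
  · rw [wq_reduce]
    exact hl
  · have h1 := length_reduce_le l
    have h2 : l.length = gd N x y := hn
    omega

end geo

/-! ### walks in the graph -/

section walk

variable {Θ : LG k}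

theorem walk_append (Θ : LG k) (a b : Wd k) (v : Θ.V) :
    Θ.walk v (a ++ b) = (Θ.walk v a).bind fun w => Θ.walk w b := by
  induction a generalizing v with
  | nil => simp [LG.walk]
  | cons s a ih =>
    simp only [List.cons_append, LG.walk]
    cases h : Θ.step v s with
    | none => simp
    | some w => simp [ih]

theorem walk_append_some {a b : Wd k} {v u : Θ.V} (h : Θ.walk v (a ++ b) = some u) :
    ∃ w, Θ.walk v a = some w ∧ Θ.walk w b = some u := by
  rw [walk_append] at h
  cases h' : Θ.walk v a with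
  | none => rw [h'] at h; simp at h
  | some w =>
    rw [h'] at h
    exact ⟨w, rfl, h⟩

theorem walk_append_of {a b : Wd k} {v w u : Θ.V} (h1 : Θ.walk v a = some w)
    (h2 : Θ.walk w b = some u) : Θ.walk v (a ++ b) = some u := by
  rw [walk_append, h1]
  exact h2

theorem walk_invRev {a : Wd k} {v w : Θ.V} (h : Θ.walk v a = some w) :
    Θ.walk w (invRev a) = some v := by
  induction a generalizing v with
  | nil => simp [LG.walk, invRev] at *; exact h.symm
  | cons s a ih =>
    simp only [LG.walk] at h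
    cases h' : Θ.step v s with
    | none => rw [h'] at h; simp at h
    | some u =>
      rw [h'] at h
      have h1 := ih h
      rw [invRev_cons]
      refine walk_append_of h1 ?_
      have := Θ.inv v s u h'
      simp [invRev, LG.walk, this]

theorem walk_red {a b : Wd k} (hs : Red a b) {v w : Θ.V} (h : Θ.walk v a = some w) :
    Θ.walk v b = some w := by
  induction hs with
  | refl => exact h
  | tail _ hst ih =>
    cases hst with
    | @not L1 L2 x b =>
      obtain ⟨u, hu1, hu2⟩ := walk_append_some ih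
      refine walk_append_of hu1 ?_
      simp only [LG.walk] at hu2
      cases h1 : Θ.step u (x, b) with
      | none => rw [h1] at hu2; simp at hu2
      | some z =>
        rw [h1] at hu2
        have := Θ.inv _ _ _ h1
        simp only [Option.bind_some] at hu2
        rw [this] at hu2
        exact hu2

theorem walk_reduce {a : Wd k} {v w : Θ.V} (h : Θ.walk v a = some w) :
    Θ.walk v (reduce a) = some w := walk_red reduce.red h

theorem walk_NN (hc : ∀ v, ∃ l, Θ.walk Θ.v0 l = some v) {v w : Θ.V} {a b : Wd k}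
    (ha : Θ.walk v a = some w) (hb : Θ.walk v b = some w) : wq (NN Θ) a = wq (NN Θ) b := by
  obtain ⟨t, ht⟩ := hc v
  have h1 : Θ.walk Θ.v0 (t ++ a ++ invRev b ++ invRev t) = some Θ.v0 :=
    walk_append_of (walk_append_of (walk_append_of ht ha) (walk_invRev hb)) (walk_invRev ht)
  have h2 : (FreeGroup.mk (t ++ a ++ invRev b ++ invRev t) : F k) ∈ NN Θ := by
    refine Subgroup.subset_normalClosure ?_
    change Θ.walk Θ.v0 (FreeGroup.mk (t ++ a ++ invRev b ++ invRev t)).toWord = some Θ.v0
    rw [toWord_mk]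
    exact walk_reduce h1
  have h3 : wq (NN Θ) (t ++ a ++ invRev b ++ invRev t) = 1 :=
    (QuotientGroup.eq_one_iff _).2 h2
  rw [wq_append, wq_append, wq_append, wq_invRev, wq_invRev] at h3
  have h4 : wq (NN Θ) t * (wq (NN Θ) a * (wq (NN Θ) b)⁻¹) * (wq (NN Θ) t)⁻¹ = 1 := by
    rw [← h3]
    group
  have h5 : wq (NN Θ) a * (wq (NN Θ) b)⁻¹ = 1 := by
    have h6 : wq (NN Θ) a * (wq (NN Θ) b)⁻¹ = (wq (NN Θ) t)⁻¹ *
        (wq (NN Θ) t * (wq (NN Θ) a * (wq (NN Θ) b)⁻¹) * (wq (NN Θ) t)⁻¹) * wq (NN Θ) t := by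
      group
    rw [h6, h4]
    group
  exact mul_inv_eq_one.1 h5

theorem exists_bound (hc : ∀ v, ∃ l, Θ.walk Θ.v0 l = some v) :
    ∃ T : ℕ, ∀ v w : Θ.V, ∃ l, Θ.walk v l = some w ∧ l.length ≤ T := by
  choose t ht using hc
  refine ⟨2 * (Finset.univ.sup fun v => (t v).length), fun v w => ?_⟩
  refine ⟨invRev (t v) ++ t w, walk_append_of (walk_invRev (ht v)) (ht w), ?_⟩
  have h1 : (t v).length ≤ Finset.univ.sup fun v => (t v).length :=
    Finset.le_sup (f := fun v => (t v).length) (Finset.mem_univ v)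
  have h2 : (t w).length ≤ Finset.univ.sup fun v => (t v).length :=
    Finset.le_sup (f := fun v => (t v).length) (Finset.mem_univ w)
  rw [List.length_append, invRev_length]
  omega

end walk

/-! ### lists -/

theorem list_split {A : Type} {L w m α β δ : List A} (h : L ++ w ++ m = α ++ β ++ δ) :
    (∃ c, L = α ++ β ++ c) ∨ (∃ c, m = c ++ β ++ δ) ∨
    ∃ α1 β1 w1 β2 w3 β3 δ3, L = α1 ++ β1 ∧ w = w1 ++ β2 ++ w3 ∧ m = β3 ++ δ3 ∧
      β = β1 ++ β2 ++ β3 ∧ (β1 = [] ∨ w1 = []) ∧ (β3 = [] ∨ w3 = []) := by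
  rw [List.append_assoc, List.append_assoc] at h
  rcases List.append_eq_append_iff.1 h with ⟨a', rfl, h1⟩ | ⟨c', rfl, h1⟩
  · rcases List.append_eq_append_iff.1 h1 with ⟨b', rfl, h2⟩ | ⟨b', rfl, h2⟩
    · right; left
      exact ⟨b', by rw [h2, List.append_assoc]⟩
    · right; right
      rcases List.append_eq_append_iff.1 h2 with ⟨c', rfl, h3⟩ | ⟨c', rfl, h3⟩
      · exact ⟨L, [], a', β, c', [], m, by simp, by simp, by simp, by simp, Or.inl rfl,
          Or.inl rfl⟩
      · exact ⟨L, [], a', b', [], c', δ, by simp, by simp, h3, by simp, Or.inl rfl, Or.inr rfl⟩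
  · rcases List.append_eq_append_iff.1 h1 with ⟨d', rfl, h2⟩ | ⟨d', rfl, h2⟩
    · left
      exact ⟨d', by simp⟩
    · right; right
      rcases List.append_eq_append_iff.1 h2 with ⟨e', rfl, h3⟩ | ⟨e', rfl, h3⟩
      · exact ⟨α, c', [], w, [], e', δ, rfl, by simp, h3, by simp, Or.inr rfl, Or.inr rfl⟩
      · exact ⟨α, c', [], d', e', [], m, rfl, by simp, by simp, by simp, Or.inr rfl,
          Or.inl rfl⟩

/-! ### reduced words -/

theorem red_append {a b : Wd k} : IsReduced (a ++ b) ↔ IsReduced a ∧ IsReduced b ∧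
    ∀ x ∈ a.getLast?, ∀ y ∈ b.head?, x.1 = y.1 → x.2 = y.2 := by
  unfold FreeGroup.IsReduced
  rw [List.isChain_append]

theorem red_tail {s : Ltr k} {w : Wd k} (h : IsReduced (s :: w)) : IsReduced w := by
  have h' : IsReduced ([s] ++ w) := h
  exact (red_append.1 h').2.1

theorem red_init {a b : Wd k} (h : IsReduced (a ++ b)) : IsReduced a := (red_append.1 h).1

theorem junc {l w : Wd k} (hl : IsReduced l) (hw : IsReduced w)
    (h : ∀ s l' w', l = s :: l' → w = s :: w' → False) : IsReduced (invRev l ++ w) := by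
  rw [red_append]
  refine ⟨isReduced_invRev hl, hw, fun x hx y hy hxy => ?_⟩
  cases l with
  | nil => simp [invRev] at hx
  | cons s l' =>
    cases w with
    | nil => simp at hy
    | cons t w' =>
      simp only [List.head?_cons, Option.mem_def, Option.some.injEq] at hy
      subst hy
      have hx' : x = (s.1, !s.2) := by
        rw [invRev_cons] at hx
        simp [invRev] at hx
        exact hx.symm
      subst hx'
      simp only at hxy ⊢
      by_contra hne
      refine h s l' w' rfl ?_
      have : s.2 = t.2 := by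
        cases h1 : s.2 <;> cases h2 : t.2 <;> simp_all
      have : s = t := Prod.ext hxy this
      rw [this]

theorem junc' {m w : Wd k} (hm : IsReduced m) (hw : IsReduced w)
    (h : ∀ s m' w', m = s :: m' → w = w' ++ [(s.1, !s.2)] → False) : IsReduced (w ++ m) := by
  have h1 : IsReduced (invRev m ++ invRev w) := by
    refine junc hm (isReduced_invRev hw) fun s m' w' h2 h3 => h s m' (invRev w') h2 ?_
    have h4 := congrArg invRev h3
    rw [invRev_invRev, invRev_cons] at h4
    rw [h4]
    simp [invRev]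
  have h2 := isReduced_invRev h1
  rwa [← invRev_append, invRev_invRev] at h2

theorem trichotomy {l m w : Wd k} (hl : IsReduced l) (hm : IsReduced m) (hw : IsReduced w) :
    (∃ s l' w', l = s :: l' ∧ w = s :: w') ∨
    (∃ s m' w', m = s :: m' ∧ w = w' ++ [(s.1, !s.2)]) ∨
    (w = [] ∧ ∃ s l' m', l = s :: l' ∧ m = s :: m') ∨ IsReduced (invRev l ++ w ++ m) := by
  by_cases h1 : ∃ s l' w', l = s :: l' ∧ w = s :: w'
  · exact Or.inl h1
  by_cases h2 : ∃ s m' w', m = s :: m' ∧ w = w' ++ [(s.1, !s.2)]
  · exact Or.inr (Or.inl h2)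
  by_cases h3 : w = [] ∧ ∃ s l' m', l = s :: l' ∧ m = s :: m'
  · exact Or.inr (Or.inr (Or.inl h3))
  refine Or.inr (Or.inr (Or.inr ?_))
  by_cases hw0 : w = []
  · subst hw0
    rw [List.append_nil]
    exact junc hl hm fun s l' w' h4 h5 => h3 ⟨rfl, s, l', w', h4, h5⟩
  · exact (junc hl hw fun s l' w' h4 h5 => h1 ⟨s, l', w', h4, h5⟩).append_overlap
      (junc' hm hw fun s m' w' h4 h5 => h2 ⟨s, m', w', h4, h5⟩) hw0

/-! ### the shortcut lemma -/

section short

variable {Θ : LG k} {g : ℕ} {x y : Gp Θ} {l m w : Wd k}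

theorem shortcut (hG : Green Θ g) (hc : ∀ v, ∃ l, Θ.walk Θ.v0 l = some v) (hg : 1 ≤ g)
    (hx : GeoTo (NN Θ) x l) (hy : GeoTo (NN Θ) y m) (hw : x * wq (NN Θ) w = y)
    (hr : IsReduced (invRev l ++ w ++ m)) (hne : invRev l ++ w ++ m ≠ []) :
    ∃ (l1 l2 m1 m2 w1 b w3 ε : Wd k) (θ θ' : Θ.V), l = l1 ++ l2 ∧ m = m1 ++ m2 ∧
      w = w1 ++ b ++ w3 ∧ (l1 = [] ∨ w1 = []) ∧ (m1 = [] ∨ w3 = []) ∧
      Θ.walk θ (invRev l1 ++ b ++ m1) = some θ' ∧ Θ.walk θ ε = some θ' ∧ IsReduced ε ∧
      100 * ε.length ≤ 6 * g ∧ 94 * g ≤ 100 * (l1.length + b.length + m1.length) := by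
  have h1 : (FreeGroup.mk (invRev l ++ w ++ m) : F k) ∈ NN Θ := by
    rw [← QuotientGroup.eq_one_iff]
    change wq (NN Θ) (invRev l ++ w ++ m) = 1
    rw [wq_append, wq_append, wq_invRev]
    have h2 : x * wq (NN Θ) l = 1 := hx.1
    have h3 : y * wq (NN Θ) m = 1 := hy.1
    have h4 : wq (NN Θ) l = x⁻¹ := (inv_eq_of_mul_eq_one_right h2).symm
    rw [h4, inv_inv, hw, h3]
  have h2 : (FreeGroup.mk (invRev l ++ w ++ m) : F k) ≠ 1 := by
    intro h
    rw [← toWord_eq_nil_iff, toWord_mk, hr.reduce_eq] at h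
    exact hne h
  obtain ⟨α, β, δ, ε, θ, θ', h3, h4, h5, h6, h7, h8⟩ := hG _ h1 h2
  rw [toWord_mk, hr.reduce_eq] at h3
  have h9 : wq (NN Θ) ε = wq (NN Θ) β := walk_NN hc h5 h4
  rcases list_split h3 with ⟨c, h10⟩ | ⟨c, h10⟩ | ⟨α1, β1, w1, β2, w3, β3, δ3, e1, e2, e3, e4, e5, e6⟩
  · exfalso
    have h11 : l = invRev c ++ invRev β ++ invRev α := by
      have := congrArg invRev h10
      rw [invRev_invRev, invRev_append, invRev_append] at this
      rw [this, List.append_assoc]
    rw [h11] at hx
    have h12 := geo_mid hx (b' := invRev ε) (by rw [wq_invRev, wq_invRev, h9])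
    rw [invRev_length, invRev_length] at h12
    omega
  · exfalso
    rw [h10] at hy
    have h12 := geo_mid hy h9
    omega
  · refine ⟨invRev β1, invRev α1, β3, δ3, w1, β2, w3, ε, θ, θ', ?_, e3, e2, ?_, e6, ?_, h5, h6,
      h7, ?_⟩
    · rw [← invRev_append, ← e1, invRev_invRev]
    · rcases e5 with e5 | e5
      · left; rw [e5]; rfl
      · right; exact e5
    · rw [invRev_invRev, ← e4]; exact h4
    · rw [e4, List.length_append, List.length_append] at h8
      rw [invRev_length]
      exact h8

/-- consequences of the shortcut lemma -/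
theorem shortcut2 (hG : Green Θ g) (hc : ∀ v, ∃ l, Θ.walk Θ.v0 l = some v) (hg : 1 ≤ g)
    {T : ℕ} (hT : ∀ v w : Θ.V, ∃ l, Θ.walk v l = some w ∧ l.length ≤ T)
    (hx : GeoTo (NN Θ) x l) (hy : GeoTo (NN Θ) y m) (hw : x * wq (NN Θ) w = y)
    (hr : IsReduced (invRev l ++ w ++ m)) (hne : invRev l ++ w ++ m ≠ []) :
    ∃ (l1 l2 m1 m2 w1 b w3 ε : Wd k), l = l1 ++ l2 ∧ m = m1 ++ m2 ∧
      w = w1 ++ b ++ w3 ∧ IsReduced ε ∧ 100 * ε.length ≤ 6 * g ∧
      94 * g ≤ 100 * (l1.length + b.length + m1.length) ∧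
      x * wq (NN Θ) l1 * wq (NN Θ) (w1 ++ ε ++ w3) = y * wq (NN Θ) m1 ∧
      l1.length ≤ b.length + m1.length + ε.length ∧
      m1.length ≤ l1.length + b.length + ε.length ∧
      l1.length ≤ T ∧ (l1 = [] ∨ w1 = []) ∧ (m1 = [] ∨ w3 = []) ∧
      (w1 = [] → w3 = [] → ∀ i ≤ l1.length,
        gd (NN Θ) (x * wq (NN Θ) (l1.take i)) y ≤ T) := by
  obtain ⟨l1, l2, m1, m2, w1, b, w3, ε, θ, θ', e1, e2, e3, e4, e5, e6, e7, e8, e9, e10⟩ :=
    shortcut hG hc hg hx hy hw hr hne
  have h1 : wq (NN Θ) ε = (wq (NN Θ) l1)⁻¹ * wq (NN Θ) b * wq (NN Θ) m1 := by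
    rw [walk_NN hc e7 e6, wq_append, wq_append, wq_invRev]
  refine ⟨l1, l2, m1, m2, w1, b, w3, ε, e1, e2, e3, e8, e9, e10, ?_, ?_, ?_, ?_, e4, e5, ?_⟩
  · have h2 : wq (NN Θ) l1 * wq (NN Θ) w1 * (wq (NN Θ) l1)⁻¹ = wq (NN Θ) w1 := by
      rcases e4 with h | h <;> rw [h, wq_nil] <;> group
    have h3 : wq (NN Θ) m1 * wq (NN Θ) w3 = wq (NN Θ) w3 * wq (NN Θ) m1 := by
      rcases e5 with h | h <;> rw [h, wq_nil] <;> group
    rw [wq_append, wq_append, h1, ← hw, e3, wq_append, wq_append]
    calc x * wq (NN Θ) l1 * (wq (NN Θ) w1 * ((wq (NN Θ) l1)⁻¹ * wq (NN Θ) b * wq (NN Θ) m1) *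
          wq (NN Θ) w3)
        = x * (wq (NN Θ) l1 * wq (NN Θ) w1 * (wq (NN Θ) l1)⁻¹) * wq (NN Θ) b *
          (wq (NN Θ) m1 * wq (NN Θ) w3) := by group
      _ = x * wq (NN Θ) w1 * wq (NN Θ) b * (wq (NN Θ) w3 * wq (NN Θ) m1) := by rw [h2, h3]
      _ = x * (wq (NN Θ) w1 * wq (NN Θ) b * wq (NN Θ) w3) * wq (NN Θ) m1 := by group
  · rw [e1] at hx
    have := geo_init hx (b' := b ++ m1 ++ invRev ε) (by
      rw [wq_append, wq_append, wq_invRev, h1]
      group)
    rw [List.length_append, List.length_append, invRev_length] at this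
    exact this
  · rw [e2] at hy
    have := geo_init hy (b' := invRev b ++ l1 ++ ε) (by
      rw [wq_append, wq_append, wq_invRev, h1]
      group)
    rw [List.length_append, List.length_append, invRev_length] at this
    omega
  · rw [List.append_assoc] at e6
    obtain ⟨θ1, e11, -⟩ := walk_append_some e6
    obtain ⟨u, hu1, hu2⟩ := hT θ1 θ
    rw [e1] at hx
    have := geo_init hx (b' := u) (walk_NN hc hu1 (by
      have := walk_invRev e11
      rwa [invRev_invRev] at this))
    omega
  · intro hw1 hw3 i hi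
    obtain ⟨θ2, e11, -⟩ := walk_append_some e6
    have h2 : l1 = l1.take i ++ l1.drop i := (List.take_append_drop i l1).symm
    rw [h2, invRev_append, List.append_assoc] at e11
    obtain ⟨θ1, -, e12⟩ := walk_append_some e11
    obtain ⟨u, hu1, hu2⟩ := hT θ1 θ2
    have h3 := walk_NN hc hu1 e12
    refine le_trans (gd_le (l := u) ?_) hu2
    rw [h3, wq_append, wq_invRev, ← hw, e3, hw1, hw3]
    simp only [List.nil_append, List.append_nil]
    group

theorem take_append_add {A : Type} (a b : List A) (j : ℕ) :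
    (a ++ b).take (a.length + j) = a ++ b.take j := by
  simp [List.take_append]

theorem lemmaA (hG : Green Θ g) (hc : ∀ v, ∃ l, Θ.walk Θ.v0 l = some v) (hg : 1 ≤ g)
    {T : ℕ} (hT : ∀ v w : Θ.V, ∃ l, Θ.walk v l = some w ∧ l.length ≤ T) (n : ℕ) :
    ∀ (x y : Gp Θ) (l m w : Wd k), l.length + m.length ≤ n → GeoTo (NN Θ) x l →
      GeoTo (NN Θ) y m → IsReduced w → 100 * w.length ≤ 6 * g → x * wq (NN Θ) w = y → ∀ i,
      ∃ i', gd (NN Θ) (x * wq (NN Θ) (l.take i)) (y * wq (NN Θ) (m.take i')) ≤ T + g := by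
  induction n with
  | zero =>
    intro x y l m w hn hx hy hw hw1 hxy i
    have hl : l = [] := List.length_eq_zero_iff.1 (by omega)
    refine ⟨0, ?_⟩
    rw [hl, List.take_nil, List.take_zero, wq_nil, mul_one, mul_one]
    exact le_trans (gd_le hxy) (by omega)
  | succ n ih =>
    intro x y l m w hn hx hy hw hw1 hxy i
    have h0 : gd (NN Θ) (x * wq (NN Θ) (l.take 0)) (y * wq (NN Θ) (m.take 0)) ≤ T + g := by
      rw [List.take_zero, List.take_zero, wq_nil, mul_one, mul_one]
      exact le_trans (gd_le hxy) (by omega)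
    rcases trichotomy (geo_reduced hx) (geo_reduced hy) hw with
      ⟨s, l', w', h1, h2⟩ | ⟨s, m', w', h1, h2⟩ | ⟨h1, s, l', m', h2, h3⟩ | hr
    · subst h1 h2
      cases i with
      | zero => exact ⟨0, h0⟩
      | succ j =>
        have h3 : GeoTo (NN Θ) (x * wq (NN Θ) [s]) l' := geo_drop (a := [s]) hx
        obtain ⟨i', hi'⟩ := ih (x * wq (NN Θ) [s]) y l' m w' (by
          simp only [List.length_cons] at hn; omega) h3 hy (red_tail hw) (by
          simp only [List.length_cons] at hw1; omega) (by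
          rw [← hxy, mul_assoc, ← wq_append]; rfl) j
        refine ⟨i', ?_⟩
        rw [List.take_succ_cons]
        have h4 : wq (NN Θ) (s :: l'.take j) = wq (NN Θ) [s] * wq (NN Θ) (l'.take j) := by
          rw [← wq_append]; rfl
        rw [h4, ← mul_assoc]
        exact hi'
    · subst h1 h2
      have h3 : GeoTo (NN Θ) (y * wq (NN Θ) [s]) m' := geo_drop (a := [s]) hy
      have h5 : wq (NN Θ) [(s.1, !s.2)] = (wq (NN Θ) [s])⁻¹ := by
        rw [← wq_invRev]; rfl
      obtain ⟨i', hi'⟩ := ih x (y * wq (NN Θ) [s]) l m' w' (by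
          simp only [List.length_cons] at hn; omega) hx h3 (red_init hw) (by
          simp only [List.length_append, List.length_cons] at hw1; omega) (by
          rw [← hxy, wq_append, h5]; group) i
      refine ⟨i' + 1, ?_⟩
      rw [List.take_succ_cons]
      have h4 : wq (NN Θ) (s :: m'.take i') = wq (NN Θ) [s] * wq (NN Θ) (m'.take i') := by
        rw [← wq_append]; rfl
      rw [h4, ← mul_assoc]
      exact hi'
    · subst h1 h2 h3
      cases i with
      | zero => exact ⟨0, h0⟩
      | succ j =>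
        have h3 : GeoTo (NN Θ) (x * wq (NN Θ) [s]) l' := geo_drop (a := [s]) hx
        have h3' : GeoTo (NN Θ) (y * wq (NN Θ) [s]) m' := geo_drop (a := [s]) hy
        obtain ⟨i', hi'⟩ := ih (x * wq (NN Θ) [s]) (y * wq (NN Θ) [s]) l' m' [] (by
          simp only [List.length_cons] at hn; omega) h3 h3' hw hw1 (by
          rw [← hxy, wq_nil]; group) j
        refine ⟨i' + 1, ?_⟩
        rw [List.take_succ_cons, List.take_succ_cons]
        have h4 : wq (NN Θ) (s :: l'.take j) = wq (NN Θ) [s] * wq (NN Θ) (l'.take j) := by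
          rw [← wq_append]; rfl
        have h5 : wq (NN Θ) (s :: m'.take i') = wq (NN Θ) [s] * wq (NN Θ) (m'.take i') := by
          rw [← wq_append]; rfl
        rw [h4, h5, ← mul_assoc, ← mul_assoc]
        exact hi'
    · by_cases hne : invRev l ++ w ++ m = []
      · have hl : l = [] := by
          have := congrArg List.length hne
          simp only [List.length_append, List.length_nil, invRev_length] at this
          exact List.length_eq_zero_iff.1 (by omega)
        refine ⟨0, ?_⟩
        rw [hl, List.take_nil, List.take_zero, wq_nil, mul_one, mul_one]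
        exact le_trans (gd_le hxy) (by omega)
      · obtain ⟨l1, l2, m1, m2, w1, b, w3, ε, e1, e2, e3, e4, e5, e6, e7, e8, e9, e10, e11, e12,
          e13⟩ := shortcut2 hG hc hg hT hx hy hxy hr hne
        have hb : w.length = w1.length + b.length + w3.length := by
          rw [e3, List.length_append, List.length_append]
        have hl1 : l1 ≠ [] := by
          intro h; rw [h] at e6 e9; simp only [List.length_nil] at e6 e9; omega
        have hm1 : m1 ≠ [] := by
          intro h; rw [h] at e6 e8; simp only [List.length_nil] at e6 e8; omega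
        have hw1' : w1 = [] := by
          rcases e11 with h | h
          · exact absurd h hl1
          · exact h
        have hw3' : w3 = [] := by
          rcases e12 with h | h
          · exact absurd h hm1
          · exact h
        by_cases hi : i ≤ l1.length
        · refine ⟨0, ?_⟩
          rw [List.take_zero, wq_nil, mul_one, e1, List.take_append_of_le_length hi]
          exact le_trans (e13 hw1' hw3' i hi) (by omega)
        · obtain ⟨j, rfl⟩ : ∃ j, i = l1.length + j := ⟨i - l1.length, by omega⟩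
          subst e1 e2
          rw [hw1', hw3', List.nil_append, List.append_nil] at e7
          have hl1' := List.length_pos_iff.2 hl1
          obtain ⟨i', hi'⟩ := ih (x * wq (NN Θ) l1) (y * wq (NN Θ) m1) l2 m2 ε (by
            rw [List.length_append, List.length_append] at hn; omega) (geo_drop hx)
            (geo_drop hy) e4 e5 e7 j
          refine ⟨m1.length + i', ?_⟩
          rw [take_append_add, take_append_add, wq_append, wq_append, ← mul_assoc, ← mul_assoc]
          exact hi'

theorem general (hG : Green Θ g) (hc : ∀ v, ∃ l, Θ.walk Θ.v0 l = some v) (hg : 1 ≤ g)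
    {T : ℕ} (hT : ∀ v w : Θ.V, ∃ l, Θ.walk v l = some w ∧ l.length ≤ T) (K : ℕ) :
    ∀ (x y : Gp Θ) (l m w : Wd k), w.length ≤ K → GeoTo (NN Θ) x l →
      GeoTo (NN Θ) y m → IsReduced w → x * wq (NN Θ) w = y → ∀ i, K * (T + 1) ≤ i →
      ∃ i', gd (NN Θ) (x * wq (NN Θ) (l.take i)) (y * wq (NN Θ) (m.take i')) ≤ T + g := by
  induction K with
  | zero =>
    intro x y l m w hn hx hy hw hxy i _
    exact lemmaA hG hc hg hT _ x y l m w le_rfl hx hy hw (by omega) hxy i
  | succ K ih =>
    intro x y l m w hn hx hy hw hxy i hi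
    by_cases hw1 : 100 * w.length ≤ 6 * g
    · exact lemmaA hG hc hg hT _ x y l m w le_rfl hx hy hw hw1 hxy i
    have hKi : K * (T + 1) + (T + 1) ≤ i := by rw [← Nat.succ_mul]; exact hi
    rcases trichotomy (geo_reduced hx) (geo_reduced hy) hw with
      ⟨s, l', w', h1, h2⟩ | ⟨s, m', w', h1, h2⟩ | ⟨h1, s, l', m', h2, h3⟩ | hr
    · subst h1 h2
      cases i with
      | zero => omega
      | succ j =>
        have h3 : GeoTo (NN Θ) (x * wq (NN Θ) [s]) l' := geo_drop (a := [s]) hx
        obtain ⟨i', hi'⟩ := ih (x * wq (NN Θ) [s]) y l' m w' (by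
          simp only [List.length_cons] at hn; omega) h3 hy (red_tail hw) (by
          rw [← hxy, mul_assoc, ← wq_append]; rfl) j (by omega)
        refine ⟨i', ?_⟩
        rw [List.take_succ_cons]
        have h4 : wq (NN Θ) (s :: l'.take j) = wq (NN Θ) [s] * wq (NN Θ) (l'.take j) := by
          rw [← wq_append]; rfl
        rw [h4, ← mul_assoc]
        exact hi'
    · subst h1 h2
      have h3 : GeoTo (NN Θ) (y * wq (NN Θ) [s]) m' := geo_drop (a := [s]) hy
      have h5 : wq (NN Θ) [(s.1, !s.2)] = (wq (NN Θ) [s])⁻¹ := by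
        rw [← wq_invRev]; rfl
      obtain ⟨i', hi'⟩ := ih x (y * wq (NN Θ) [s]) l m' w' (by
          simp only [List.length_append, List.length_cons] at hn; omega) hx h3
          (red_init hw) (by
          rw [← hxy, wq_append, h5]; group) i (by omega)
      refine ⟨i' + 1, ?_⟩
      rw [List.take_succ_cons]
      have h4 : wq (NN Θ) (s :: m'.take i') = wq (NN Θ) [s] * wq (NN Θ) (m'.take i') := by
        rw [← wq_append]; rfl
      rw [h4, ← mul_assoc]
      exact hi'
    · subst h1
      simp at hw1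
    · have hwne : w ≠ [] := by
        intro h; subst h; simp at hw1
      have hne : invRev l ++ w ++ m ≠ [] := by
        intro h
        simp only [List.append_eq_nil_iff] at h
        exact hwne h.1.2
      obtain ⟨l1, l2, m1, m2, w1, b, w3, ε, e1, e2, e3, e4, e5, e6, e7, e8, e9, e10, e11, e12,
          e13⟩ := shortcut2 hG hc hg hT hx hy hxy hr hne
      have hb : w.length = w1.length + b.length + w3.length := by
        rw [e3, List.length_append, List.length_append]
      by_cases hbe : ε.length < b.length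
      · obtain ⟨j, rfl⟩ : ∃ j, i = l1.length + j := ⟨i - l1.length, by omega⟩
        subst e1 e2
        have hlen := length_reduce_le (w1 ++ ε ++ w3)
        rw [List.length_append, List.length_append] at hlen
        obtain ⟨i', hi'⟩ := ih (x * wq (NN Θ) l1) (y * wq (NN Θ) m1) l2 m2
          (reduce (w1 ++ ε ++ w3)) (by omega) (geo_drop hx) (geo_drop hy)
          (isReduced_reduce _) (by rw [wq_reduce]; exact e7) j (by omega)
        refine ⟨m1.length + i', ?_⟩
        rw [take_append_add, take_append_add, wq_append, wq_append, ← mul_assoc, ← mul_assoc]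
        exact hi'
      · exfalso
        have hl1 : l1 ≠ [] := by
          intro h; rw [h] at e6 e9; simp only [List.length_nil] at e6 e9; omega
        have hm1 : m1 ≠ [] := by
          intro h; rw [h] at e6 e8; simp only [List.length_nil] at e6 e8; omega
        have hw1' : w1 = [] := by
          rcases e11 with h | h
          · exact absurd h hl1
          · exact h
        have hw3' : w3 = [] := by
          rcases e12 with h | h
          · exact absurd h hm1
          · exact h
        rw [hw1', hw3'] at hb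
        simp only [List.length_nil] at hb
        omega

end short

/-- fellow travelling in the groups of the graphs -/
theorem ft : S_FT := by
  intro k Θ g M hgood hg _ _ hG
  obtain ⟨T, hT⟩ := exists_bound hgood.conn
  refine ⟨T + g, fun K => ⟨K * (T + 1), fun x y l m hx hy hxy i hi => ?_⟩⟩
  obtain ⟨w, hw1, hw2, hw3⟩ := exists_word x y
  exact general hG hgood.conn (by omega) hT K x y l m w (by omega) hx hy hw1 hw2 i hi

end Pool.Agent.Y288.EG
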